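import Mathlib
import Pool.Agent.U236.MO9

/-!
# MP_a187e6_nt: Q1 for all MO functions with a small sum over the primes

Let `f` be an MO function with `∑_p |f(p)| p^(-s) ≤ θ log(1/s) + C` for `0 < s ≤ 1`, where `0 ≤ θ < 1`.
Then `S_f(x)` is `Ω(x^(-1/2))`. There is no assumption on the size of `f(n)` for other `n`.

Proof: if `|S_f(x)| ≤ c x^(-1/2)` for large `x` then `|f(n)| ≤ 3 c n^(-1/2)` for large `n`, so the squares of primes
contribute at most `3 c log(1/s)`, and the Euler product converges absolutely for `s > 0` and is at least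
a constant times `s^((1+θ)/2)`, while the Dirichlet series is `O(s)`.
-/

set_option autoImplicit false

namespace Pool.Agent.Results.MP_a187e6_nt.SmallPrimeSum

open Filter Topology Finset

/-- `f` (only its values at `n ≥ 1` matter) is an MO function: multiplicative, with
`∑ f(n)` convergent to `0`, and `∑_k f(p ^ k)` convergent to a nonzero value for every prime `p` -/
structure IsMO (f : ℕ → ℂ) : Prop where
  one : f 1 = 1
  mul : ∀ m n : ℕ, 1 ≤ m → 1 ≤ n → Nat.Coprime m n → f (m * n) = f m * f n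
  sum_zero : Tendsto (fun N : ℕ => ∑ n ∈ Icc 1 N, f n) atTop (𝓝 0)
  local_ne_zero : ∀ p : ℕ, p.Prime →
    ∃ L : ℂ, L ≠ 0 ∧ Tendsto (fun K : ℕ => ∑ k ∈ range K, f (p ^ k)) atTop (𝓝 L)

/-- the partial sum `S_f(x) = ∑_{n ≤ x} f(n)` -/
noncomputable def partialSum (f : ℕ → ℂ) (x : ℝ) : ℂ := ∑ n ∈ Icc 1 ⌊x⌋₊, f n

/-- Let `f` be an MO function such that for some `0 ≤ θ < 1` and some `C₀` the sum of `|f(p)| p^(-s)` over every
finite set of primes is at most `θ log(1/s) + C₀`, for `0 < s ≤ 1`. Then there are arbitrarily large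
`x` with `|S_f(x)| > ((1 - θ)/12) x^(-1/2)`. -/
theorem result (f : ℕ → ℂ) (hf : IsMO f) (θ C₀ : ℝ) (hθ0 : 0 ≤ θ) (hθ : θ < 1)
    (hsum : ∀ s : ℝ, 0 < s → s ≤ 1 → ∀ T : Finset Nat.Primes,
      ∑ p ∈ T, ‖f p‖ * ((p : ℕ) : ℝ) ^ (-s) ≤ θ * Real.log (1 / s) + C₀) :
    ∃ᶠ x : ℝ in atTop, (1 - θ) / 12 * x ^ (-(1/2) : ℝ) < ‖partialSum f x‖ := by
  by_contra hcon
  rw [not_frequently] at hcon
  set c : ℝ := (1 - θ) / 12 with hc
  have hc0 : 0 < c := by rw [hc]; linarith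
  obtain ⟨x0, hx0⟩ := eventually_atTop.1 hcon
  obtain ⟨N0, hN0⟩ := exists_nat_ge x0
  have hSn : ∀ n : ℕ, N0 ≤ n → ‖∑ k ∈ Icc 1 n, f k‖ ≤ c * (n : ℝ) ^ (-(1/2) : ℝ) := by
    intro n hn
    have h := not_lt.1 (hx0 n (hN0.trans (by exact_mod_cast hn)))
    unfold partialSum at h
    rwa [Nat.floor_natCast] at h
  have hfn : ∀ n : ℕ, N0 + 2 ≤ n → ‖f n‖ ≤ 3 * c * (n : ℝ) ^ (-(1/2) : ℝ) := by
    intro n hn
    obtain ⟨m, rfl⟩ : ∃ m, n = m + 1 := ⟨n - 1, by omega⟩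
    have h1 := hSn (m + 1) (by omega)
    have h2 := hSn m (by omega)
    have h3 : f (m + 1) = ∑ k ∈ Icc 1 (m + 1), f k - ∑ k ∈ Icc 1 m, f k := by
      rw [Finset.sum_Icc_succ_top (by omega : 1 ≤ m + 1)]
      ring
    have hm1 : (1 : ℝ) ≤ m := by exact_mod_cast (by omega : 1 ≤ m)
    have h4 : (m : ℝ) ^ (-(1/2) : ℝ) ≤ 2 * ((m + 1 : ℕ) : ℝ) ^ (-(1/2) : ℝ) := by
      have h5 : (m : ℝ) ^ (-(1/2) : ℝ) ≤ (((m + 1 : ℕ) : ℝ) / 4) ^ (-(1/2) : ℝ) :=
        Real.rpow_le_rpow_of_nonpos (by positivity) (by push_cast; linarith) (by norm_num)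
      have h6 : (4 : ℝ) ^ (-(1/2) : ℝ) = 1 / 2 := by
        rw [show (4 : ℝ) = 2 ^ (2 : ℕ) by norm_num, ← Real.rpow_natCast, ← Real.rpow_mul (by norm_num)]
        norm_num
      rw [Real.div_rpow (by positivity) (by norm_num), h6] at h5
      linarith
    have h7 := mul_le_mul_of_nonneg_left h4 hc0.le
    rw [h3]
    refine (norm_sub_le _ _).trans ?_
    linarith
  set B : ℝ := 3 * c + ∑ m ∈ range (N0 + 2), ‖f m‖ * (m : ℝ) ^ ((1/2) : ℝ) with hBdef
  have hnn : ∀ m ∈ range (N0 + 2), 0 ≤ ‖f m‖ * (m : ℝ) ^ ((1/2) : ℝ) := fun m _ => by positivity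
  have hB0 : 0 ≤ B := add_nonneg (by positivity) (Finset.sum_nonneg hnn)
  have hB : ∀ n : ℕ, 1 ≤ n → ‖f n‖ ≤ B * (n : ℝ) ^ (-(1/2) : ℝ) := by
    intro n hn
    have hn0 : (0 : ℝ) < n := by exact_mod_cast hn
    rcases Nat.lt_or_ge n (N0 + 2) with h | h
    · have h1 : ‖f n‖ * (n : ℝ) ^ ((1/2) : ℝ) ≤ B := by
        rw [hBdef]
        have h2 := Finset.single_le_sum hnn (Finset.mem_range.2 h)
        linarith
      calc ‖f n‖ = (‖f n‖ * (n : ℝ) ^ ((1/2) : ℝ)) * (n : ℝ) ^ (-(1/2) : ℝ) := by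
            rw [mul_assoc, ← Real.rpow_add hn0]
            norm_num
        _ ≤ _ := mul_le_mul_of_nonneg_right h1 (Real.rpow_nonneg hn0.le _)
    · refine (hfn n h).trans (mul_le_mul_of_nonneg_right ?_ (Real.rpow_nonneg hn0.le _))
      rw [hBdef]
      linarith [Finset.sum_nonneg hnn]
  have hS : Summable (fun n : ℕ => ‖∑ k ∈ Icc 1 n, f k‖ / n) := by
    have hg : Summable (fun n : ℕ => c * (n : ℝ) ^ (-(3/2) : ℝ)) :=
      (Real.summable_nat_rpow.2 (by norm_num)).mul_left c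
    refine Summable.of_norm_bounded_eventually_nat hg ?_
    filter_upwards [eventually_ge_atTop (N0 + 1)] with n hn
    have hn0 : (0 : ℝ) < n := by exact_mod_cast (by omega : 0 < n)
    rw [Real.norm_of_nonneg (by positivity), div_le_iff₀ hn0]
    have h3 : (n : ℝ) ^ (-(3/2) : ℝ) * n = (n : ℝ) ^ (-(1/2) : ℝ) := by
      rw [show (-(3/2) : ℝ) = -(1/2) - 1 by norm_num, Real.rpow_sub hn0, Real.rpow_one]
      field_simp
    rw [mul_assoc, h3]
    exact hSn n (by omega)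
  exact Pool.Agent.U236.MO.core4 f hf.one hf.mul B hB0 hB hf.sum_zero hS hf.local_ne_zero
    θ C₀ (3 * c) hθ0 hθ (by positivity) (by rw [hc]; linarith)
    (eventually_atTop.2 ⟨N0 + 2, hfn⟩) hsum

end Pool.Agent.Results.MP_a187e6_nt.SmallPrimeSum
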